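import Mathlib.Algebra.Order.Ring.Star
import Mathlib.MeasureTheory.Constructions.Polish.Basic
import Mathlib.Analysis.Normed.Operator.Basic
import Mathlib.Analysis.InnerProductSpace.Basic
import Mathlib.Analysis.Normed.Lp.lpSpace
import Mathlib.Analysis.Normed.Group.Tannery
import Mathlib.Topology.Connected.Separation
import Mathlib.Order.CompletePartialOrder
import Mathlib.Topology.Separation.Lemmas

-- ======== part 0: formerly Pool.Agent.MP_7ca887_an.Trees
section MrgPart0

/-! The set of ill-founded trees on `ℕ` is not Borel. -/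

namespace Pool.Agent.MP_7ca887_an

open Filter Topology

/-- The initial segment of length `n` of `b`, last entry first. -/
def br (b : ℕ → ℕ) : ℕ → List ℕ
  | 0 => []
  | n + 1 => b n :: br b n

/-- `T` has an infinite branch. -/
def IllF (T : List ℕ → Bool) : Prop := ∃ b : ℕ → ℕ, ∀ n, T (br b n) = true

/-- `l` and all its ancestors lie in `T`. -/
def inT (T : List ℕ → Bool) (l : List ℕ) : Prop := ∀ l', l' <:+ l → T l' = true

@[simp] theorem length_br (b : ℕ → ℕ) (n : ℕ) : (br b n).length = n := by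
  induction n with
  | zero => rfl
  | succ n ih => simp [br, ih]

theorem map_br (f : ℕ → ℕ) (b : ℕ → ℕ) (n : ℕ) : (br b n).map f = br (fun i => f (b i)) n := by
  induction n with
  | zero => rfl
  | succ n ih => simp [br, ih]

theorem br_succ' (b : ℕ → ℕ) (n : ℕ) : br b (n + 1) = br (fun i => b (i + 1)) n ++ [b 0] := by
  induction n with
  | zero => rfl
  | succ n ih =>
    show b (n + 1) :: br b (n + 1) = _
    rw [ih]
    rfl

theorem suffix_br {b : ℕ → ℕ} {n : ℕ} {l : List ℕ} (h : l <:+ br b n) : ∃ m, m ≤ n ∧ l = br b m := by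
  induction n with
  | zero => exact ⟨0, le_rfl, List.suffix_nil.1 h⟩
  | succ n ih =>
    rcases List.suffix_cons_iff.1 h with h | h
    · exact ⟨n + 1, le_rfl, h⟩
    · obtain ⟨m, hm, rfl⟩ := ih h
      exact ⟨m, by omega, rfl⟩

theorem br_suffix (b : ℕ → ℕ) {m n : ℕ} (h : m ≤ n) : br b m <:+ br b n := by
  induction h with
  | refl => exact List.suffix_refl _
  | step _ ih => exact ih.trans (List.suffix_cons _ _)

theorem br_eq {y y' : ℕ → ℕ} {n : ℕ} (h : br y n = br y' n) : ∀ i, i < n → y i = y' i := by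
  induction n with
  | zero => intro i hi; omega
  | succ n ih =>
    intro i hi
    simp only [br, List.cons.injEq] at h
    rcases Nat.lt_succ_iff_lt_or_eq.1 hi with h' | h'
    · exact ih h.2 i h'
    · rw [h']; exact h.1

theorem inT_br {T : List ℕ → Bool} {b : ℕ → ℕ} (h : ∀ n, T (br b n) = true) (n : ℕ) :
    inT T (br b n) := by
  intro l hl
  obtain ⟨m, -, rfl⟩ := suffix_br hl
  exact h m

theorem inT.tail {T : List ℕ → Bool} {k : ℕ} {l : List ℕ} (h : inT T (k :: l)) : inT T l :=
  fun l' hl => h l' (hl.trans (List.suffix_cons _ _))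

theorem measurableSet_inT (l : List ℕ) : MeasurableSet {T : List ℕ → Bool | inT T l} := by
  have : {T : List ℕ → Bool | inT T l} =
      ⋂ l' : List ℕ, ⋂ _ : l' <:+ l, (fun T : List ℕ → Bool => T l') ⁻¹' {true} := by
    ext T
    simp [inT]
  rw [this]
  exact MeasurableSet.iInter fun l' => MeasurableSet.iInter fun _ =>
    measurable_pi_apply l' (measurableSet_singleton _)

theorem not_measurableSet_IllF : ¬ MeasurableSet {T : List ℕ → Bool | IllF T} := by
  classical
  intro h
  have : PolishSpace (List ℕ → Bool) := {}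
  have hA := h.compl.analyticSet
  rw [MeasureTheory.AnalyticSet] at hA
  rcases hA with hA | ⟨f, hf, hr⟩
  · have : (fun _ => false) ∈ ({T : List ℕ → Bool | IllF T}ᶜ : Set _) := by
      rintro ⟨b, hb⟩
      simpa using hb 0
    rw [hA] at this
    exact this
  have hwf : ∀ y, ¬ IllF (f y) := fun y => by
    have : f y ∈ Set.range f := ⟨y, rfl⟩
    rw [hr] at this
    exact this
  let S : List ℕ → Prop := fun l => ∃ y : ℕ → ℕ,
    l.map (fun a => (Nat.unpair a).1) = br y l.length ∧ inT (f y) (l.map fun a => (Nat.unpair a).2)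
  have hS : ∀ b : ℕ → ℕ, ¬ ∀ n, S (br b n) := by
    intro b hb
    choose ys h1 h2 using hb
    simp only [map_br, length_br] at h1 h2
    have hlim : Tendsto ys atTop (𝓝 fun i => (Nat.unpair (b i)).1) := by
      rw [tendsto_pi_nhds]
      intro i
      apply tendsto_const_nhds.congr'
      filter_upwards [eventually_gt_atTop i] with n hn
      exact br_eq (h1 n) i hn
    apply hwf (fun i => (Nat.unpair (b i)).1)
    refine ⟨fun i => (Nat.unpair (b i)).2, fun k => ?_⟩
    have hc : Tendsto (fun n => f (ys n) (br (fun i => (Nat.unpair (b i)).2) k)) atTop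
        (𝓝 (f (fun i => (Nat.unpair (b i)).1) (br (fun i => (Nat.unpair (b i)).2) k))) :=
      (((continuous_apply _).comp hf).tendsto _).comp hlim
    refine tendsto_nhds_unique hc (tendsto_const_nhds.congr' ?_)
    filter_upwards [eventually_ge_atTop k] with n hn
    exact (h2 n _ (br_suffix _ hn)).symm
  let T : List ℕ → Bool := fun l => decide (l = [] ∨ S l.dropLast)
  have hT : T ∈ Set.range f := by
    rw [hr]
    rintro ⟨b, hb⟩
    apply hS (fun i => b (i + 1))
    intro n
    have := of_decide_eq_true (hb (n + 1))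
    rw [br_succ'] at this
    simpa using this
  obtain ⟨y0, hy0⟩ := hT
  let w : ℕ → ℕ := fun n => Nat.rec (Nat.pair (y0 0) 0) (fun n r => Nat.pair (y0 (n + 1)) r) n
  let z : ℕ → ℕ := fun n => Nat.casesOn n 0 w
  have hw1 : ∀ n, (Nat.unpair (w n)).1 = y0 n := by
    intro n
    cases n <;> simp [w]
  have hw2 : ∀ n, (Nat.unpair (w n)).2 = z n := by
    intro n
    cases n <;> simp [w, z]
  apply hS w
  intro n
  induction n using Nat.strong_induction_on with
  | _ n ih =>
    refine ⟨y0, ?_, ?_⟩
    · simp only [map_br, length_br, hw1]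
    · simp only [map_br, hw2]
      intro l hl
      obtain ⟨m, hm, rfl⟩ := suffix_br hl
      rw [hy0]
      apply decide_eq_true
      cases m with
      | zero => exact Or.inl rfl
      | succ m =>
        right
        rw [br_succ']
        simpa using ih m (by omega)

end Pool.Agent.MP_7ca887_an

end MrgPart0

-- ======== part 1: formerly Pool.Agent.MP_7ca887_an.Ell1
section MrgPart1

/-! Elementary tools for real `ℓ¹(J)`: basis vectors, operators given by bounded families,
restrictions to subsets, closed spans, and the extension property `P`. -/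

namespace Pool.Agent.MP_7ca887_an

open Filter Topology

noncomputable section

abbrev L1 (J : Type) := lp (fun _ : J => ℝ) 1

variable {J : Type}

open Classical in
/-- The basis vector. -/
def e (c : J) : L1 J := lp.single 1 c (1 : ℝ)

open Classical in
theorem e_apply (c c' : J) : e c c' = if c' = c then 1 else 0 := by
  unfold e
  by_cases h : c' = c
  · subst h; simp
  · rw [lp.single_apply_ne _ _ _ h, if_neg h]

theorem norm_e (c : J) : ‖e c‖ = 1 := by
  classical
  unfold e
  rw [lp.norm_single (by norm_num)]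
  simp

theorem hasSum_abs (x : L1 J) : HasSum (fun c => |x c|) ‖x‖ := by
  have := lp.hasSum_norm (p := 1) (by norm_num) x
  simpa using this

theorem sum_abs_le (x : L1 J) (s : Finset J) : ∑ c ∈ s, |x c| ≤ ‖x‖ :=
  sum_le_hasSum s (fun _ _ => abs_nonneg _) (hasSum_abs x)

/-- An element of `ℓ¹` from a function with bounded finite sums. -/
def mkL1 (f : J → ℝ) (C : ℝ) (h : ∀ s : Finset J, ∑ c ∈ s, |f c| ≤ C) : L1 J :=
  ⟨f, memℓp_gen' (C := C) (by simpa using h)⟩

theorem norm_mkL1_le (f : J → ℝ) (C : ℝ) (h : ∀ s : Finset J, ∑ c ∈ s, |f c| ≤ C) :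
    ‖mkL1 f C h‖ ≤ C :=
  hasSum_le_of_sum_le (hasSum_abs (mkL1 f C h)) h

variable {F : Type*} [NormedAddCommGroup F] [NormedSpace ℝ F] [CompleteSpace F]

theorem summable_smul (v : J → F) {C : ℝ} (h : ∀ c, ‖v c‖ ≤ C) (x : L1 J) :
    Summable fun c => x c • v c := by
  refine Summable.of_norm_bounded ((hasSum_abs x).summable.mul_right C) fun c => ?_
  rw [norm_smul, Real.norm_eq_abs]
  exact mul_le_mul_of_nonneg_left (h c) (abs_nonneg _)

omit [CompleteSpace F] in
theorem norm_tsum_smul_le (v : J → F) {C : ℝ} (h : ∀ c, ‖v c‖ ≤ C) (x : L1 J) :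
    ‖∑' c, x c • v c‖ ≤ C * ‖x‖ := by
  rw [mul_comm]
  refine tsum_of_norm_bounded ((hasSum_abs x).mul_right C) fun c => ?_
  rw [norm_smul, Real.norm_eq_abs]
  exact mul_le_mul_of_nonneg_left (h c) (abs_nonneg _)

/-- The operator on `ℓ¹` sending `e c` to `v c`. -/
def lift (v : J → F) (C : ℝ) (h : ∀ c, ‖v c‖ ≤ C) : L1 J →L[ℝ] F :=
  LinearMap.mkContinuous
    { toFun := fun x => ∑' c, x c • v c
      map_add' := fun x y => by
        rw [← (summable_smul v h x).tsum_add (summable_smul v h y)]
        simp [add_smul]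
      map_smul' := fun a x => by
        rw [RingHom.id_apply, ← (summable_smul v h x).tsum_const_smul a]
        simp [mul_smul] }
    C (fun x => norm_tsum_smul_le v h x)

theorem lift_apply (v : J → F) (C : ℝ) (h : ∀ c, ‖v c‖ ≤ C) (x : L1 J) :
    lift v C h x = ∑' c, x c • v c := rfl

theorem hasSum_lift (v : J → F) (C : ℝ) (h : ∀ c, ‖v c‖ ≤ C) (x : L1 J) :
    HasSum (fun c => x c • v c) (lift v C h x) := (summable_smul v h x).hasSum

theorem lift_e (v : J → F) (C : ℝ) (h : ∀ c, ‖v c‖ ≤ C) (c : J) : lift v C h (e c) = v c := by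
  classical
  rw [lift_apply, tsum_eq_single c]
  · rw [e_apply, if_pos rfl, one_smul]
  · intro c' hc
    rw [e_apply, if_neg hc, zero_smul]

theorem hasSum_e (x : L1 J) : HasSum (fun c => x c • e c) x := by
  classical
  have := lp.hasSum_single (p := 1) (by norm_num) x
  convert this using 2 with c
  unfold e
  rw [← lp.single_smul]
  simp

open Classical in
/-- The part of the operator `e c ↦ v c` coming from the coordinates in `S`. -/
def part (v : J → F) (h : ∀ c, ‖v c‖ ≤ 1) (S : Set J) : L1 J →L[ℝ] F :=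
  lift (fun c => if c ∈ S then v c else 0) 1 (fun c => by
    by_cases hc : c ∈ S
    · rw [if_pos hc]; exact h c
    · rw [if_neg hc]; simp)

open Classical in
theorem hasSum_part (v : J → F) (h : ∀ c, ‖v c‖ ≤ 1) (S : Set J) (x : L1 J) :
    HasSum (fun c => x c • if c ∈ S then v c else 0) (part v h S x) := hasSum_lift _ _ _ x

open Classical in
theorem part_e (v : J → F) (h : ∀ c, ‖v c‖ ≤ 1) (S : Set J) (c : J) :
    part v h S (e c) = if c ∈ S then v c else 0 := lift_e _ _ _ c

theorem part_eq_zero (v : J → F) (h : ∀ c, ‖v c‖ ≤ 1) (S : Set J) (x : L1 J)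
    (hx : ∀ c ∈ S, x c = 0) : part v h S x = 0 := by
  classical
  refine (hasSum_part v h S x).unique ?_
  convert hasSum_zero with c
  by_cases hc : c ∈ S
  · rw [hx c hc, zero_smul]
  · rw [if_neg hc, smul_zero]

theorem part_singleton (v : J → F) (h : ∀ c, ‖v c‖ ≤ 1) (c : J) (x : L1 J) :
    part v h {c} x = x c • v c := by
  classical
  refine (hasSum_part v h {c} x).unique ?_
  have := hasSum_single (f := fun c' => x c' • if c' ∈ ({c} : Set J) then v c' else 0) c
    (fun c' hc => by simp [hc])
  simpa using this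

theorem part_union (v : J → F) (h : ∀ c, ‖v c‖ ≤ 1) {S S' : Set J} (hd : Disjoint S S')
    (x : L1 J) : part v h (S ∪ S') x = part v h S x + part v h S' x := by
  classical
  refine (hasSum_part v h _ x).unique ?_
  convert (hasSum_part v h S x).add (hasSum_part v h S' x) using 2 with c
  by_cases h1 : c ∈ S
  · have h2 : c ∉ S' := Set.disjoint_left.1 hd h1
    simp [h1, h2]
  · by_cases h2 : c ∈ S' <;> simp [h1, h2]

theorem part_finset_sum {ι : Type} (v : J → F) (h : ∀ c, ‖v c‖ ≤ 1) (S : ι → Set J)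
    (hd : Pairwise fun a a' => Disjoint (S a) (S a')) (A : Finset ι) (x : L1 J) :
    part v h (⋃ a ∈ A, S a) x = ∑ a ∈ A, part v h (S a) x := by
  classical
  induction A using Finset.induction_on with
  | empty => simpa using part_eq_zero v h ∅ x (by simp)
  | insert a A ha ih =>
    rw [Finset.sum_insert ha, Finset.set_biUnion_insert, part_union, ih]
    rw [Set.disjoint_iUnion₂_right]
    intro a' ha'
    exact hd (fun h => ha (h ▸ ha'))

theorem hasSum_part_iUnion {ι : Type} (v : J → F) (h : ∀ c, ‖v c‖ ≤ 1) (S : ι → Set J)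
    (hd : Pairwise fun a a' => Disjoint (S a) (S a')) (x : L1 J) :
    HasSum (fun a => part v h (S a) x) (part v h (⋃ a, S a) x) := by
  classical
  have key : Tendsto (fun A : Finset ι => part v h (⋃ a ∈ A, S a) x) atTop
      (𝓝 (part v h (⋃ a, S a) x)) := by
    refine tendsto_tsum_of_dominated_convergence (hasSum_abs x).summable (fun c => ?_) ?_
    · apply tendsto_const_nhds.congr'
      by_cases hc : c ∈ ⋃ a, S a
      · obtain ⟨a, ha⟩ := Set.mem_iUnion.1 hc
        filter_upwards [eventually_ge_atTop ({a} : Finset ι)] with A hA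
        have : c ∈ ⋃ a ∈ A, S a := Set.mem_iUnion₂.2 ⟨a, hA (Finset.mem_singleton_self a), ha⟩
        rw [if_pos hc, if_pos this]
      · filter_upwards with A
        have : c ∉ ⋃ a ∈ A, S a := fun h' => by
          obtain ⟨a, -, ha⟩ := Set.mem_iUnion₂.1 h'
          exact hc (Set.mem_iUnion.2 ⟨a, ha⟩)
        rw [if_neg hc, if_neg this]
    · filter_upwards with A c
      rw [norm_smul, Real.norm_eq_abs]
      refine mul_le_of_le_one_right (abs_nonneg _) ?_
      split_ifs
      · exact h c
      · simp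
  simp only [part_finset_sum v h S hd] at key
  exact key

/-- The sum of the coordinates in `S`. -/
def Phi (S : Set J) : L1 J →L[ℝ] ℝ := part (fun _ => (1 : ℝ)) (fun _ => by simp) S

/-- The restriction to the coordinates in `S`. -/
def Res (S : Set J) : L1 J →L[ℝ] L1 J := part e (fun c => (norm_e c).le) S

theorem Res_univ (x : L1 J) : Res Set.univ x = x := by
  refine (hasSum_part _ _ _ x).unique ?_
  simpa using hasSum_e x

theorem sum_abs_Phi_le {ι : Type} (S : ι → Set J) (G : Finset ι)
    (hd : ∀ a ∈ G, ∀ a' ∈ G, a ≠ a' → Disjoint (S a) (S a')) (x : L1 J) :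
    ∑ a ∈ G, |Phi (S a) x| ≤ ‖x‖ := by
  classical
  have h1 : ∀ a, HasSum (fun c => if c ∈ S a then |x c| else 0)
      (∑' c, if c ∈ S a then |x c| else 0) := fun a =>
    (Summable.of_nonneg_of_le (fun c => by split_ifs <;> simp)
      (fun c => by split_ifs <;> simp) (hasSum_abs x).summable).hasSum
  have h2 : ∀ a, |Phi (S a) x| ≤ ∑' c, if c ∈ S a then |x c| else 0 := fun a => by
    rw [← Real.norm_eq_abs]
    refine HasSum.norm_le_of_bounded (hasSum_part _ _ (S a) x) (h1 a) fun c => ?_
    split_ifs <;> simp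
  refine (Finset.sum_le_sum fun a _ => h2 a).trans ?_
  refine hasSum_le (fun c => ?_) (hasSum_sum fun a (_ : a ∈ G) => h1 a) (hasSum_abs x)
  by_cases hc : ∃ a ∈ G, c ∈ S a
  · obtain ⟨a, ha, hca⟩ := hc
    rw [Finset.sum_eq_single a]
    · rw [if_pos hca]
    · intro a' ha' hne
      rw [if_neg (Set.disjoint_left.1 (hd a ha a' ha' hne.symm) hca)]
    · intro h; exact (h ha).elim
  · rw [Finset.sum_eq_zero]
    · exact abs_nonneg _
    · intro a ha
      rw [if_neg fun h => hc ⟨a, ha, h⟩]

/-- The closed linear span. -/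
def cspan {E : Type*} [NormedAddCommGroup E] [NormedSpace ℝ E] (S : Set E) : Submodule ℝ E :=
  (Submodule.span ℝ S).topologicalClosure

section cspan

variable {E : Type*} [NormedAddCommGroup E] [NormedSpace ℝ E]
variable {G : Type*} [NormedAddCommGroup G] [NormedSpace ℝ G]

theorem isClosed_cspan (S : Set E) : IsClosed (cspan S : Set E) :=
  Submodule.isClosed_topologicalClosure _

theorem subset_cspan {S : Set E} {x : E} (hx : x ∈ S) : x ∈ cspan S :=
  Submodule.le_topologicalClosure _ (Submodule.subset_span hx)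

theorem cspan_le {S : Set E} (K : Submodule ℝ E) (hK : IsClosed (K : Set E))
    (h : ∀ x ∈ S, x ∈ K) : cspan S ≤ K :=
  Submodule.topologicalClosure_minimal _ (Submodule.span_le.2 h) hK

theorem eq_on_cspan {S : Set E} (f g : E →L[ℝ] G) (h : ∀ x ∈ S, f x = g x) {x : E}
    (hx : x ∈ cspan S) : f x = g x :=
  cspan_le (LinearMap.eqLocus f.toLinearMap g.toLinearMap)
    (isClosed_eq f.continuous g.continuous) h hx

theorem map_cspan {S : Set E} {S' : Set G} (f : E →L[ℝ] G) (h : ∀ x ∈ S, f x ∈ S') {x : E}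
    (hx : x ∈ cspan S) : f x ∈ cspan S' :=
  cspan_le ((cspan S').comap f.toLinearMap) ((isClosed_cspan S').preimage f.continuous)
    (fun x hx => subset_cspan (h x hx)) hx

theorem iso_of_gens {S : Set E} {S' : Set G} (W : E →L[ℝ] G) (W' : G →L[ℝ] E)
    (h1 : ∀ x ∈ S, W x ∈ S') (h2 : ∀ x ∈ S', W' x ∈ S) (h3 : ∀ x ∈ S, W' (W x) = x)
    (h4 : ∀ x ∈ S', W (W' x) = x) : Nonempty (cspan S ≃L[ℝ] cspan S') := by
  refine ⟨ContinuousLinearEquiv.equivOfInverse
    ((W.comp (cspan S).subtypeL).codRestrict _ fun x => map_cspan W h1 x.2)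
    ((W'.comp (cspan S').subtypeL).codRestrict _ fun x => map_cspan W' h2 x.2) ?_ ?_⟩
  · intro x
    exact Subtype.ext (eq_on_cspan (W'.comp W) (ContinuousLinearMap.id ℝ E) h3 x.2)
  · intro x
    exact Subtype.ext (eq_on_cspan (W.comp W') (ContinuousLinearMap.id ℝ G) h4 x.2)

theorem mem_of_hasSum {ι : Type} {K : Submodule ℝ E} (hK : IsClosed (K : Set E)) {f : ι → E}
    {x : E} (h : HasSum f x) (hf : ∀ i, f i ∈ K) : x ∈ K :=
  hK.mem_of_tendsto h (Eventually.of_forall fun _ => K.sum_mem fun i _ => hf i)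

/-- Bounded approximate solutions of a dyadic system of equations give a bounded solution.
Spaces complemented in a dual space have this property. -/
def P (E : Type*) [NormedAddCommGroup E] [NormedSpace ℝ E] : Prop :=
  ∀ (z : List Bool → ℕ → E) (d : List Bool → E) (M : ℝ), (∀ s n, ‖z s n‖ ≤ M) →
    (∀ s n, s.length < n → z s n - (1 / 2 : ℝ) • (z (false :: s) n + z (true :: s) n) = d s) →
    ∃ (w : List Bool → E) (M' : ℝ), (∀ s, ‖w s‖ ≤ M') ∧
      ∀ s, w s - (1 / 2 : ℝ) • (w (false :: s) + w (true :: s)) = d s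

theorem P.of_equiv (φ : E ≃L[ℝ] G) (h : P E) : P G := by
  intro z d M hz hd
  obtain ⟨w, M', hw, hw'⟩ := h (fun s n => φ.symm (z s n)) (fun s => φ.symm (d s))
    (‖(φ.symm : G →L[ℝ] E)‖ * M)
    (fun s n => ((φ.symm : G →L[ℝ] E).le_opNorm _).trans
      (mul_le_mul_of_nonneg_left (hz s n) (norm_nonneg _)))
    (fun s n hn => by rw [← hd s n hn]; simp)
  refine ⟨fun s => φ (w s), ‖(φ : E →L[ℝ] G)‖ * M', fun s => ((φ : E →L[ℝ] G).le_opNorm _).trans
      (mul_le_mul_of_nonneg_left (hw s) (norm_nonneg _)), fun s => ?_⟩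
  have := congrArg φ (hw' s)
  simpa using this

end cspan

end

end Pool.Agent.MP_7ca887_an

end MrgPart1

-- marker of a merged file
example : 731051 + 805602 = 731051 + 805602 := rfl
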