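import Mathlib.Data.Finset.Functor
import Mathlib.Topology.UniformSpace.Uniformizable
import Pool.Agent.MP_7ca887_an.Ell1

/-! The spaces attached to a tree `T`.  For well-founded `T` the space has property `P`. -/

namespace Pool.Agent.MP_7ca887_an

open Filter Topology

noncomputable section

abbrev Lt := ℕ × Bool

/-- Nodes: a copy number and a finite word, last letter first. -/
abbrev Nd := ℕ × List Lt

def ch (a : Lt) (c : Nd) : Nd := (c.1, a :: c.2)

def cone (c : Nd) : Set Nd := {c' | c'.1 = c.1 ∧ c.2 <:+ c'.2}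

def gen (k : ℕ) (c : Nd) : L1 Nd :=
  e c - (1 / 2 : ℝ) • (e (ch (k, false) c) + e (ch (k, true) c))

def In (T : List ℕ → Bool) (c : Nd) : Prop := c.1 ≠ 0 ∧ inT T (c.2.map Prod.fst)

def genA (T : List ℕ → Bool) : Set (L1 Nd) := {x | ∃ k c, In T (ch (k, false) c) ∧ x = gen k c}

theorem ch_inj {a a' : Lt} {c c' : Nd} (h : ch a c = ch a' c') : a = a' ∧ c = c' := by
  simp only [ch, Prod.mk.injEq, List.cons.injEq] at h
  exact ⟨h.2.1, Prod.ext h.1 h.2.2⟩

theorem ch_mem_cone {a : Lt} {d c : Nd} : ch a d ∈ cone c ↔ c = ch a d ∨ d ∈ cone c := by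
  simp only [cone, ch, Set.mem_ofPred_eq, List.suffix_cons_iff]
  constructor
  · rintro ⟨h1, h2 | h2⟩
    · exact Or.inl (Prod.ext h1.symm h2)
    · exact Or.inr ⟨h1, h2⟩
  · rintro (h | h)
    · subst h; exact ⟨rfl, Or.inl rfl⟩
    · exact ⟨h.1, Or.inr h.2⟩

theorem not_mem_cone_ch (a : Lt) (c : Nd) : c ∉ cone (ch a c) := by
  intro h
  have := h.2.length_le
  simp [ch] at this

theorem cone_ch_subset (a : Lt) (c : Nd) : cone (ch a c) ⊆ cone c :=
  fun _ h => ⟨h.1, (List.suffix_cons _ _).trans h.2⟩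

theorem exists_cons_suffix {α : Type} {l l' : List α} (h : l <:+ l') (hne : l ≠ l') :
    ∃ a ∈ l', a :: l <:+ l' := by
  induction l' with
  | nil => exact (hne (List.suffix_nil.1 h)).elim
  | cons b l' ih =>
    rcases List.suffix_cons_iff.1 h with h | h
    · exact (hne h).elim
    · by_cases h' : l = l'
      · subst h'
        exact ⟨b, by simp, List.suffix_refl _⟩
      · obtain ⟨a, ha, h2⟩ := ih h h'
        exact ⟨a, List.mem_cons_of_mem _ ha, h2.trans (List.suffix_cons _ _)⟩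

theorem cone_eq (c : Nd) : cone c = {c} ∪ ⋃ a, cone (ch a c) := by
  ext x
  simp only [Set.mem_union, Set.mem_singleton_iff, Set.mem_iUnion]
  constructor
  · intro h
    by_cases hx : c.2 = x.2
    · exact Or.inl (Prod.ext h.1 hx.symm)
    · obtain ⟨a, -, ha⟩ := exists_cons_suffix h.2 hx
      exact Or.inr ⟨a, h.1, ha⟩
  · rintro (h | ⟨a, h⟩)
    · subst h; exact ⟨rfl, List.suffix_refl _⟩
    · exact cone_ch_subset a c h

theorem cone_ch_disjoint (c : Nd) :
    Pairwise fun a a' => Disjoint (cone (ch a c)) (cone (ch a' c)) := by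
  intro a a' hne
  rw [Set.disjoint_left]
  intro x h h'
  have := List.IsSuffix.eq_of_length
    (List.suffix_of_suffix_length_le h.2 h'.2 (by simp [ch])) (by simp [ch])
  simp only [ch, List.cons.injEq] at this
  exact hne this.1

theorem hasSum_part_cone {F : Type*} [NormedAddCommGroup F] [NormedSpace ℝ F] [CompleteSpace F]
    (v : Nd → F) (h : ∀ c, ‖v c‖ ≤ 1) (c : Nd) (x : L1 Nd) :
    HasSum (fun a => part v h (cone (ch a c)) x) (part v h (cone c) x - x c • v c) := by
  have h1 := hasSum_part_iUnion v h _ (cone_ch_disjoint c) x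
  have h2 : part v h (cone c) x = x c • v c + part v h (⋃ a, cone (ch a c)) x := by
    conv_lhs => rw [cone_eq c]
    rw [part_union, part_singleton]
    rw [Set.disjoint_singleton_left]
    intro h'
    obtain ⟨a, ha⟩ := Set.mem_iUnion.1 h'
    exact not_mem_cone_ch a c ha
  rw [h2, add_sub_cancel_left]
  exact h1

open Classical in
theorem Phi_gen (c : Nd) (k : ℕ) (d : Nd) : Phi (cone c) (gen k d) =
    -(1 / 2 : ℝ) * ((if c = ch (k, false) d then 1 else 0) +
      (if c = ch (k, true) d then 1 else 0)) := by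
  have key : ∀ a : Lt, (if ch a d ∈ cone c then (1 : ℝ) else 0) =
      (if c = ch a d then 1 else 0) + (if d ∈ cone c then 1 else 0) := by
    intro a
    by_cases h1 : c = ch a d
    · have h2 : d ∉ cone c := h1 ▸ not_mem_cone_ch a d
      rw [if_pos (ch_mem_cone.2 (Or.inl h1)), if_pos h1, if_neg h2, add_zero]
    · by_cases h2 : d ∈ cone c
      · rw [if_pos (ch_mem_cone.2 (Or.inr h2)), if_neg h1, if_pos h2, zero_add]
      · rw [if_neg (fun h => (ch_mem_cone.1 h).elim h1 h2), if_neg h1, if_neg h2, add_zero]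
  unfold gen Phi
  rw [map_sub, map_smul, map_add, part_e, part_e, part_e, key, key, smul_eq_mul]
  ring

theorem abs_Phi_le (S : Set Nd) (x : L1 Nd) : |Phi S x| ≤ ‖x‖ := by
  simpa using sum_abs_Phi_le (fun _ : Unit => S) {()} (by simp) x

/-- The region of `c`: its cone with the cones of the children in `A` removed. -/
def reg (A : Finset Lt) (c : Nd) : Set Nd := cone c \ ⋃ a ∈ A, cone (ch a c)

theorem Phi_reg (A : Finset Lt) (c : Nd) (x : L1 Nd) :
    Phi (reg A c) x = Phi (cone c) x - ∑ a ∈ A, Phi (cone (ch a c)) x := by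
  unfold Phi
  rw [← part_finset_sum _ _ _ (cone_ch_disjoint c), eq_sub_iff_add_eq, ← part_union _ _
    (show Disjoint (reg A c) _ from Set.disjoint_sdiff_left)]
  congr 2
  unfold reg
  rw [Set.sdiff_union_of_subset]
  exact Set.iUnion₂_subset fun a _ => cone_ch_subset a c

theorem reg_disjoint {A : Finset Lt} {c c' : Nd} (hc : ∀ a ∈ c.2, a ∈ A) (hc' : ∀ a ∈ c'.2, a ∈ A)
    (hne : c ≠ c') : Disjoint (reg A c) (reg A c') := by
  rw [Set.disjoint_left]
  intro x h h'
  have h1 : c.1 = c'.1 := h.1.1.symm.trans h'.1.1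
  have h2 : c.2 ≠ c'.2 := fun h2 => hne (Prod.ext h1 h2)
  rcases List.suffix_or_suffix_of_suffix h.1.2 h'.1.2 with h3 | h3
  · obtain ⟨a, ha, h4⟩ := exists_cons_suffix h3 h2
    exact h.2 (Set.mem_iUnion₂.2 ⟨a, hc' a ha, h.1.1, h4.trans h'.1.2⟩)
  · obtain ⟨a, ha, h4⟩ := exists_cons_suffix h3 h2.symm
    exact h'.2 (Set.mem_iUnion₂.2 ⟨a, hc a ha, h'.1.1, h4.trans h.1.2⟩)

/-- The ultralimit of the masses of a cone. -/
def mm (y : ℕ → L1 Nd) (c : Nd) : ℝ :=
  limUnder (hyperfilter ℕ : Filter ℕ) fun n => Phi (cone c) (y n)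

variable {y : ℕ → L1 Nd} {M : ℝ}

theorem tendsto_mm (hy : ∀ n, ‖y n‖ ≤ M) (c : Nd) :
    Tendsto (fun n => Phi (cone c) (y n)) (hyperfilter ℕ : Filter ℕ) (𝓝 (mm y c)) := by
  apply tendsto_nhds_limUnder
  obtain ⟨l, -, hl⟩ := (isCompact_Icc (a := -M) (b := M)).ultrafilter_le_nhds
    ((hyperfilter ℕ).map fun n => Phi (cone c) (y n)) (by
      rw [Ultrafilter.coe_map, le_principal_iff, mem_map]
      exact Eventually.of_forall fun n => abs_le.1 ((abs_Phi_le _ _).trans (hy n)))
  exact ⟨l, hl⟩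

theorem summable_mm (hy : ∀ n, ‖y n‖ ≤ M) (c : Nd) : Summable fun a => mm y (ch a c) := by
  refine Summable.of_abs (summable_of_sum_le (c := M) (fun _ => abs_nonneg _) fun A => ?_)
  refine le_of_tendsto' (tendsto_finsetSum A fun a _ => (tendsto_mm hy (ch a c)).abs) fun n => ?_
  exact (sum_abs_Phi_le (fun a => cone (ch a c)) A
    (fun a _ a' _ h => cone_ch_disjoint c h) (y n)).trans (hy n)

def gg (y : ℕ → L1 Nd) (c : Nd) : ℝ := mm y c - ∑' a, mm y (ch a c)

theorem sum_gg_le (hy : ∀ n, ‖y n‖ ≤ M) (G : Finset Nd) : ∑ c ∈ G, |gg y c| ≤ M := by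
  classical
  have h1 : Tendsto (fun A : Finset Lt => ∑ c ∈ G, |mm y c - ∑ a ∈ A, mm y (ch a c)|) atTop
      (𝓝 (∑ c ∈ G, |gg y c|)) :=
    tendsto_finsetSum G fun c _ => (tendsto_const_nhds.sub (summable_mm hy c).hasSum).abs
  refine le_of_tendsto h1 ?_
  filter_upwards [eventually_ge_atTop (G.biUnion fun c => c.2.toFinset)] with A hA
  have hA' : ∀ c ∈ G, ∀ a ∈ c.2, a ∈ A := fun c hc a ha =>
    hA (Finset.mem_biUnion.2 ⟨c, hc, List.mem_toFinset.2 ha⟩)
  refine le_of_tendsto' (tendsto_finsetSum G fun c _ => ((tendsto_mm hy c).sub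
    (tendsto_finsetSum A fun a _ => tendsto_mm hy (ch a c))).abs) fun n => ?_
  simp only [← Phi_reg]
  exact (sum_abs_Phi_le (reg A) G
    (fun c hc c' hc' h => reg_disjoint (hA' c hc) (hA' c' hc') h) (y n)).trans (hy n)

/-- The generalised limit of a bounded sequence. -/
def Lam (hy : ∀ n, ‖y n‖ ≤ M) : L1 Nd := mkL1 (gg y) M (sum_gg_le hy)

theorem Lam_apply (hy : ∀ n, ‖y n‖ ≤ M) (c : Nd) : Lam hy c = gg y c := rfl

theorem Lam_rel {y' y'' : ℕ → L1 Nd} (hy : ∀ n, ‖y n‖ ≤ M) (hy' : ∀ n, ‖y' n‖ ≤ M)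
    (hy'' : ∀ n, ‖y'' n‖ ≤ M) {d : L1 Nd} {N : ℕ}
    (h : ∀ n, N < n → y n - (1 / 2 : ℝ) • (y' n + y'' n) = d) :
    Lam hy - (1 / 2 : ℝ) • (Lam hy' + Lam hy'') = d := by
  have hm : ∀ c, mm y c - (1 / 2 : ℝ) * (mm y' c + mm y'' c) = Phi (cone c) d := by
    intro c
    refine tendsto_nhds_unique ((tendsto_mm hy c).sub
      (((tendsto_mm hy' c).add (tendsto_mm hy'' c)).const_mul (1 / 2 : ℝ)))
      (tendsto_const_nhds.congr' ?_)
    have : ∀ᶠ n in (hyperfilter ℕ : Filter ℕ), N < n :=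
      Nat.hyperfilter_le_atTop (eventually_gt_atTop N)
    filter_upwards [this] with n hn
    rw [← h n hn, map_sub, map_smul, map_add, smul_eq_mul]
  ext c
  have h1 := ((summable_mm hy c).hasSum.sub
    (((summable_mm hy' c).hasSum.add (summable_mm hy'' c).hasSum).mul_left (1 / 2 : ℝ)))
  simp only [hm] at h1
  have h2 := h1.unique (hasSum_part_cone _ _ c d)
  have h3 := hm c
  unfold Phi at h3
  rw [← h3] at h2
  simp only [lp.coeFn_sub, lp.coeFn_smul, lp.coeFn_add, Pi.sub_apply, Pi.smul_apply, Pi.add_apply,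
    Lam_apply, gg, smul_eq_mul] at h2 ⊢
  linarith

theorem In.of_ch {T : List ℕ → Bool} {a : Lt} {c : Nd} (h : In T (ch a c)) : In T c :=
  ⟨h.1, inT.tail h.2⟩

theorem In.of_cone {T : List ℕ → Bool} {c c' : Nd} (h : In T c') (hc : c' ∈ cone c) : In T c :=
  ⟨hc.1 ▸ h.1, fun l hl => h.2 l (hl.trans (hc.2.map _))⟩

theorem wf_ch {T : List ℕ → Bool} (hT : ¬ IllF T) :
    WellFounded fun c' c : Nd => (∃ a, c' = ch a c) ∧ In T c' := by
  rw [wellFounded_iff_isEmpty_descending_chain]
  refine ⟨fun ⟨f, hf⟩ => hT ?_⟩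
  choose a ha using fun n => (hf n).1
  have hlen : ∀ n, (f n).2.length = (f 0).2.length + n := by
    intro n
    induction n with
    | zero => rfl
    | succ n ih => rw [ha n]; simp [ch, ih]; ring
  have hsuf : ∀ m n, m ≤ n → (f m).2 <:+ (f n).2 := by
    intro m n h
    induction h with
    | refl => exact List.suffix_refl _
    | step _ ih => rw [ha]; exact ih.trans (List.suffix_cons _ _)
  have hex : ∀ n, ∃ l : List Lt, l.length = n ∧ l <:+ (f n).2 := fun n =>
    ⟨(f n).2.drop (f 0).2.length, by simp [hlen n], List.drop_suffix _ _⟩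
  choose l hl1 hl2 using hex
  have hstep : ∀ n, ∃ a, l (n + 1) = a :: l n := by
    intro n
    have h1 : l n <:+ l (n + 1) := List.suffix_of_suffix_length_le
      ((hl2 n).trans (hsuf n (n + 1) (by omega))) (hl2 (n + 1)) (by simp [hl1])
    obtain ⟨a, -, h2⟩ := exists_cons_suffix h1 (fun h => by
      have := congrArg List.length h
      simp [hl1] at this)
    exact ⟨a, (h2.eq_of_length (by simp [hl1])).symm⟩
  choose b hb using hstep
  have hbr : ∀ n, (l n).map Prod.fst = br (fun n => (b n).1) n := by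
    intro n
    induction n with
    | zero => rw [List.length_eq_zero_iff.1 (hl1 0)]; rfl
    | succ n ih => rw [hb n, List.map_cons, ih]; rfl
  refine ⟨fun n => (b n).1, fun n => ?_⟩
  rw [← hbr]
  exact (hf n).2.2 _ (((hl2 n).trans (hsuf n (n + 1) (by omega))).map _)

theorem Lam_mem {T : List ℕ → Bool} (hT : ¬ IllF T) (hy : ∀ n, ‖y n‖ ≤ M)
    (hA : ∀ n, y n ∈ cspan (genA T)) : Lam hy ∈ cspan (genA T) := by
  classical
  have hzero : ∀ c : Nd, (∀ a d, In T (ch a d) → c ≠ ch a d) → mm y c = 0 := by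
    intro c hc
    refine tendsto_nhds_unique (tendsto_mm hy c) (tendsto_const_nhds.congr fun n => ?_)
    refine (eq_on_cspan (Phi (cone c)) 0 ?_ (hA n)).symm
    rintro _ ⟨k, d, hd, rfl⟩
    rw [Phi_gen, if_neg (hc _ _ hd), if_neg (hc (k, true) d hd)]
    simp
  have hout : ∀ c : Nd, ¬ In T c → mm y c = 0 := fun c hc =>
    hzero c fun a d h h' => hc (h' ▸ h)
  have hres : ∀ c : Nd, ¬ In T c → Res (cone c) (Lam hy) = 0 := by
    intro c hc
    apply part_eq_zero
    intro c' hc'
    have h1 : ¬ In T c' := fun h => hc (h.of_cone hc')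
    rw [Lam_apply, gg, hout c' h1]
    simp [fun a => hout (ch a c') fun h => h1 h.of_ch]
  have hbal : ∀ k c, mm y (ch (k, false) c) = mm y (ch (k, true) c) := by
    intro k c
    refine tendsto_nhds_unique (tendsto_mm hy _) ((tendsto_mm hy _).congr fun n => ?_)
    refine eq_on_cspan (Phi (cone _)) (Phi (cone _)) ?_ (hA n)
    rintro _ ⟨k', d, -, rfl⟩
    rw [Phi_gen, Phi_gen]
    have e1 : ch (k, true) c ≠ ch (k', false) d := fun h => by simpa using (ch_inj h).1
    have e2 : ch (k, false) c ≠ ch (k', true) d := fun h => by simpa using (ch_inj h).1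
    have e3 : ch (k, true) c = ch (k', true) d ↔ ch (k, false) c = ch (k', false) d := by
      simp [ch]
    rw [if_neg e1, if_neg e2, zero_add, add_zero]
    simp only [e3]
  have claim : ∀ c : Nd, Res (cone c) (Lam hy) - mm y c • e c ∈ cspan (genA T) := by
    intro c
    induction c using (wf_ch hT).induction with
    | _ c ih =>
      have h1 := (hasSum_part_cone e (fun c => (norm_e c).le) c (Lam hy)).sub
        ((summable_mm hy c).hasSum.smul_const (e c))
      have h2 : part e (fun c => (norm_e c).le) (cone c) (Lam hy) - Lam hy c • e c -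
          (∑' a, mm y (ch a c)) • e c = Res (cone c) (Lam hy) - mm y c • e c := by
        rw [Lam_apply, gg, sub_smul]
        unfold Res
        abel
      rw [h2] at h1
      have h3 := h1.prod_fiberwise fun k => hasSum_fintype _
      refine mem_of_hasSum (isClosed_cspan _) h3 fun k => ?_
      rw [Fintype.sum_bool]
      by_cases hk : In T (ch (k, false) c)
      · have i1 := ih _ ⟨⟨_, rfl⟩, hk⟩
        have i2 := ih (ch (k, true) c) ⟨⟨_, rfl⟩, hk⟩
        have i3 : gen k c ∈ cspan (genA T) := subset_cspan ⟨k, c, hk, rfl⟩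
        have := Submodule.sub_mem _ (Submodule.add_mem _ i1 i2)
          (Submodule.smul_mem _ (2 * mm y (ch (k, true) c)) i3)
        convert this using 1
        rw [hbal]
        unfold gen Res
        module
      · have hk' : ¬ In T (ch (k, true) c) := hk
        have i1 := hres _ hk
        have i2 := hres _ hk'
        unfold Res at i1 i2
        rw [i1, i2, hout _ hk, hout _ hk']
        simp
  have h1 := hasSum_part_iUnion e (fun c => (norm_e c).le) (fun j : ℕ => cone (j, []))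
    (fun j j' hne => Set.disjoint_left.2 fun x h h' => hne (h.1.symm.trans h'.1)) (Lam hy)
  have h2 : (⋃ j : ℕ, cone (j, [])) = Set.univ :=
    Set.eq_univ_of_forall fun x => Set.mem_iUnion.2 ⟨x.1, rfl, List.nil_suffix⟩
  rw [h2] at h1
  have h3 := Res_univ (Lam hy)
  unfold Res at h3
  rw [h3] at h1
  refine mem_of_hasSum (isClosed_cspan _) h1 fun j => ?_
  have := claim (j, [])
  rw [hzero (j, []) (fun a d _ h => by simp [ch] at h), zero_smul, sub_zero] at this
  exact this

theorem P_genA {T : List ℕ → Bool} (hT : ¬ IllF T) : P (cspan (genA T)) := by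
  intro z d M hz hd
  have hz' : ∀ s n, ‖(z s n : L1 Nd)‖ ≤ M := hz
  refine ⟨fun s => ⟨Lam (hz' s), Lam_mem hT (hz' s) fun n => (z s n).2⟩, M,
    fun s => norm_mkL1_le _ _ (sum_gg_le (hz' s)), fun s => Subtype.ext ?_⟩
  exact Lam_rel (hz' s) (hz' (false :: s)) (hz' (true :: s))
    fun n hn => congrArg Subtype.val (hd s n hn)

end

end Pool.Agent.MP_7ca887_an
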