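import Mathlib.Algebra.Order.Star.Real
import Pool.Agent.MP_7ca887_an.Forest

/-! Adding a copy of the Lindenstrauss space: it is absorbed along an infinite branch, and it
destroys property `P`. -/

namespace Pool.Agent.MP_7ca887_an

open Filter Topology

noncomputable section

def liftb (b : ℕ → ℕ) : List Bool → List Lt
  | [] => []
  | s :: σ => (b σ.length, s) :: liftb b σ

def InB (T : List ℕ → Bool) (k : ℕ) (c : Nd) : Prop :=
  In T (ch (k, false) c) ∨ (k = 0 ∧ ∃ σ, c = (0, liftb (fun _ => 0) σ))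

def genB (T : List ℕ → Bool) : Set (L1 Nd) := {x | ∃ k c, InB T k c ∧ x = gen k c}

theorem map_snd_liftb (b : ℕ → ℕ) (σ : List Bool) : (liftb b σ).map Prod.snd = σ := by
  induction σ with
  | nil => rfl
  | cons s σ ih => simp [liftb, ih]

theorem map_fst_liftb (b : ℕ → ℕ) (σ : List Bool) :
    (liftb b σ).map Prod.fst = br b σ.length := by
  induction σ with
  | nil => rfl
  | cons s σ ih => simp [liftb, ih, br]

def onb (b : ℕ → ℕ) (i : List Lt) : Prop := i = liftb b (i.map Prod.snd)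

open Classical in
def rho (b : ℕ → ℕ) : List Lt → List Bool
  | [] => []
  | a :: i => if onb b (a :: i) then (a :: i).map Prod.snd else rho b i

theorem rho_liftb (b : ℕ → ℕ) (σ : List Bool) : rho b (liftb b σ) = σ := by
  cases σ with
  | nil => rfl
  | cons s σ =>
    have h : onb b (liftb b (s :: σ)) := by
      unfold onb
      rw [map_snd_liftb]
    have h2 := map_snd_liftb b (s :: σ)
    simp only [liftb] at h h2 ⊢
    rw [rho, if_pos h, h2]

theorem onb_cons {b : ℕ → ℕ} {a : Lt} {i : List Lt} (h : onb b (a :: i)) :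
    onb b i ∧ a.1 = b i.length := by
  simp only [onb, List.map_cons, liftb, List.cons.injEq, List.length_map] at h
  exact ⟨h.2, congrArg Prod.fst h.1⟩

def bj (b : ℕ → ℕ) (j : ℕ) : ℕ → ℕ := if j = 0 then fun _ => 0 else b

def NN (b : ℕ → ℕ) (j : ℕ) (σ : List Bool) : Nd := (j, liftb (bj b j) σ)

def GG (b : ℕ → ℕ) (j : ℕ) (σ : List Bool) : L1 Nd := gen (bj b j σ.length) (NN b j σ)

theorem GG_eq (b : ℕ → ℕ) (j : ℕ) (σ : List Bool) : GG b j σ =
    e (NN b j σ) - (1 / 2 : ℝ) • (e (NN b j (false :: σ)) + e (NN b j (true :: σ))) := rfl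

theorem norm_three (a b c : Nd) : ‖e a - e b + e c‖ ≤ 3 := by
  have h1 := norm_add_le (e a - e b) (e c)
  have h2 := norm_sub_le (e a) (e b)
  rw [norm_e] at h1
  rw [norm_e, norm_e] at h2
  linarith

def Wd (b : ℕ → ℕ) : L1 Nd →L[ℝ] L1 Nd :=
  lift (fun c => e c - e (c.1, liftb b (rho b c.2)) + e (NN b (c.1 - 1) (rho b c.2))) 3
    fun _ => norm_three _ _ _

def Wu (b : ℕ → ℕ) : L1 Nd →L[ℝ] L1 Nd :=
  lift (fun c => if c.1 = 0 then e (NN b 1 (c.2.map Prod.snd)) else
      e c - e (c.1, liftb b (rho b c.2)) + e (NN b (c.1 + 1) (rho b c.2))) 3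
    fun c => by
      split_ifs
      · rw [norm_e]; norm_num
      · exact norm_three _ _ _

theorem Wd_e (b : ℕ → ℕ) (j : ℕ) (σ : List Bool) : Wd b (e (NN b (j + 1) σ)) = e (NN b j σ) := by
  unfold Wd
  rw [lift_e]
  simp [NN, bj, rho_liftb]

theorem Wu_e (b : ℕ → ℕ) (j : ℕ) (σ : List Bool) : Wu b (e (NN b j σ)) = e (NN b (j + 1) σ) := by
  unfold Wu
  rw [lift_e]
  by_cases hj : j = 0
  · subst hj
    simp [NN, map_snd_liftb]
  · simp [NN, bj, rho_liftb, hj]

theorem Wd_GG (b : ℕ → ℕ) (j : ℕ) (σ : List Bool) : Wd b (GG b (j + 1) σ) = GG b j σ := by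
  rw [GG_eq, GG_eq, map_sub, map_smul, map_add, Wd_e, Wd_e, Wd_e]

theorem Wu_GG (b : ℕ → ℕ) (j : ℕ) (σ : List Bool) : Wu b (GG b j σ) = GG b (j + 1) σ := by
  rw [GG_eq, GG_eq, map_sub, map_smul, map_add, Wu_e, Wu_e, Wu_e]

theorem rho_off {b : ℕ → ℕ} {k : ℕ} {i : List Lt} (h : ¬ (onb b i ∧ k = b i.length)) (s : Bool) :
    rho b ((k, s) :: i) = rho b i := by
  rw [rho, if_neg fun h' => h (onb_cons h')]

theorem Wd_off {b : ℕ → ℕ} {k : ℕ} {c : Nd} (h : ¬ (onb b c.2 ∧ k = b c.2.length)) :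
    Wd b (gen k c) = gen k c := by
  unfold gen Wd
  rw [map_sub, map_smul, map_add, lift_e, lift_e, lift_e]
  simp only [ch, rho_off h]
  module

theorem Wu_off {b : ℕ → ℕ} {k : ℕ} {c : Nd} (h : ¬ (onb b c.2 ∧ k = b c.2.length))
    (hc : c.1 ≠ 0) : Wu b (gen k c) = gen k c := by
  unfold gen Wu
  rw [map_sub, map_smul, map_add, lift_e, lift_e, lift_e]
  simp only [ch, rho_off h, if_neg hc]
  module

theorem gen_on {b : ℕ → ℕ} {k : ℕ} {c : Nd} (h : onb b c.2 ∧ k = b c.2.length) (hc : c.1 ≠ 0) :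
    ∃ j σ, gen k c = GG b (j + 1) σ := by
  obtain ⟨j, hj⟩ := Nat.exists_eq_succ_of_ne_zero hc
  refine ⟨j, c.2.map Prod.snd, ?_⟩
  unfold GG NN
  have : bj b (j + 1) = b := by simp [bj]
  rw [this, List.length_map, ← h.2, ← h.1]
  congr 1
  exact Prod.ext hj rfl

theorem GG_mem_A {T : List ℕ → Bool} {b : ℕ → ℕ} (hb : ∀ n, T (br b n) = true) (j : ℕ)
    (σ : List Bool) : GG b (j + 1) σ ∈ genA T := by
  refine ⟨bj b (j + 1) σ.length, NN b (j + 1) σ, ⟨Nat.succ_ne_zero j, ?_⟩, rfl⟩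
  have : bj b (j + 1) = b := by simp [bj]
  simp only [ch, NN, this, List.map_cons, map_fst_liftb]
  exact inT_br hb (σ.length + 1)

theorem genA_subset (T : List ℕ → Bool) : genA T ⊆ genB T :=
  fun _ ⟨k, c, h, hx⟩ => ⟨k, c, Or.inl h, hx⟩

theorem GG_zero_mem (T : List ℕ → Bool) (b : ℕ → ℕ) (σ : List Bool) : GG b 0 σ ∈ genB T :=
  ⟨0, _, Or.inr ⟨rfl, σ, rfl⟩, rfl⟩

theorem GG_mem_B {T : List ℕ → Bool} {b : ℕ → ℕ} (hb : ∀ n, T (br b n) = true) (j : ℕ)
    (σ : List Bool) : GG b j σ ∈ genB T := by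
  cases j with
  | zero => exact GG_zero_mem T b σ
  | succ j => exact genA_subset T (GG_mem_A hb j σ)

theorem iso_of_IllF {T : List ℕ → Bool} (hT : IllF T) :
    Nonempty (cspan (genA T) ≃L[ℝ] cspan (genB T)) := by
  obtain ⟨b, hb⟩ := hT
  have hA : ∀ x ∈ genA T, (Wd b x = x ∧ Wu b x = x) ∨ ∃ j σ, x = GG b (j + 1) σ := by
    rintro _ ⟨k, c, h, rfl⟩
    by_cases h' : onb b c.2 ∧ k = b c.2.length
    · exact Or.inr (gen_on h' h.1)
    · exact Or.inl ⟨Wd_off h', Wu_off h' h.1⟩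
  have hB : ∀ x ∈ genB T, (x ∈ genA T ∧ Wd b x = x ∧ Wu b x = x) ∨ ∃ j σ, x = GG b j σ := by
    rintro _ ⟨k, c, h | ⟨rfl, σ, rfl⟩, rfl⟩
    · rcases hA _ ⟨k, c, h, rfl⟩ with h' | ⟨j, σ, h'⟩
      · exact Or.inl ⟨⟨k, c, h, rfl⟩, h'⟩
      · exact Or.inr ⟨j + 1, σ, h'⟩
    · exact Or.inr ⟨0, σ, rfl⟩
  refine iso_of_gens (Wd b) (Wu b) (fun x hx => ?_) (fun x hx => ?_) (fun x hx => ?_)
    (fun x hx => ?_)
  · rcases hA x hx with h | ⟨j, σ, rfl⟩
    · rw [h.1]; exact genA_subset T hx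
    · rw [Wd_GG]; exact GG_mem_B hb j σ
  · rcases hB x hx with h | ⟨j, σ, rfl⟩
    · rw [h.2.2]; exact h.1
    · rw [Wu_GG]; exact GG_mem_A hb j σ
  · rcases hA x hx with h | ⟨j, σ, rfl⟩
    · rw [h.1, h.2]
    · rw [Wd_GG, Wu_GG]
  · rcases hB x hx with h | ⟨j, σ, rfl⟩
    · rw [h.2.2, h.2.1]
    · rw [Wu_GG, Wd_GG]

/-- The probability that a random extension of `r` passes through `t` (first letter first). -/
def pr : List Bool → List Bool → ℝ
  | [], _ => 1
  | _ :: t, [] => (1 / 2) * pr t []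
  | a :: t, b :: r => if a = b then pr t r else 0

theorem pr_bounds (t r : List Bool) : 0 ≤ pr t r ∧ pr t r ≤ 1 ∧
    pr t r * 2 ^ t.length ≤ 2 ^ r.length := by
  induction t generalizing r with
  | nil => simp [pr, one_le_pow₀]
  | cons a t ih =>
    cases r with
    | nil =>
      obtain ⟨h1, h2, h3⟩ := ih []
      simp only [pr, List.length_cons, pow_succ, List.length_nil] at h3 ⊢
      refine ⟨by linarith, by linarith, by linarith⟩
    | cons b r =>
      obtain ⟨h1, h2, h3⟩ := ih r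
      simp only [pr, List.length_cons, pow_succ]
      split_ifs
      · refine ⟨h1, h2, by linarith⟩
      · refine ⟨le_rfl, zero_le_one, by rw [zero_mul]; positivity⟩

theorem pr_self (t : List Bool) : pr t t = 1 := by
  induction t with
  | nil => rfl
  | cons a t ih => simp [pr, ih]

theorem pr_avg (t r : List Bool) :
    pr t r = (1 / 2) * (pr t (r ++ [false]) + pr t (r ++ [true])) := by
  induction t generalizing r with
  | nil => simp [pr]; norm_num
  | cons a t ih =>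
    cases r with
    | nil => cases a <;> simp [pr]
    | cons b r =>
      simp only [pr, List.cons_append]
      split_ifs
      · exact ih r
      · simp

def phv (t : List Bool) (c : Nd) : ℝ :=
  if c.1 = 0 then pr t.reverse (c.2.map Prod.snd).reverse else 0

theorem phv_bounds (t : List Bool) (c : Nd) : 0 ≤ phv t c ∧ phv t c ≤ 1 ∧
    phv t c * 2 ^ t.length ≤ 2 ^ c.2.length := by
  unfold phv
  split_ifs
  · simpa using pr_bounds t.reverse (c.2.map Prod.snd).reverse
  · refine ⟨le_rfl, zero_le_one, by rw [zero_mul]; positivity⟩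

def phi (t : List Bool) : L1 Nd →L[ℝ] ℝ :=
  lift (phv t) 1 fun c => by
    rw [Real.norm_eq_abs, abs_of_nonneg (phv_bounds t c).1]
    exact (phv_bounds t c).2.1

theorem phi_gen (t : List Bool) (k : ℕ) (c : Nd) : phi t (gen k c) = 0 := by
  unfold gen phi
  rw [map_sub, map_smul, map_add, lift_e, lift_e, lift_e]
  simp only [phv, ch, List.map_cons, List.reverse_cons, smul_eq_mul]
  split_ifs
  · rw [pr_avg]; ring
  · ring

theorem phi_le (t : List Bool) (x : L1 Nd) (G : Finset Nd) {δ : ℝ} (hδ : 0 ≤ δ)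
    (h : ∀ c ∈ G, phv t c ≤ δ) : phi t x ≤ δ * ‖x‖ + (‖x‖ - ∑ c ∈ G, |x c|) := by
  classical
  have h1 : HasSum (fun c => if c ∈ G then |x c| else 0) (∑ c ∈ G, |x c|) := by
    have := hasSum_sum_of_ne_finset_zero (f := fun c => if c ∈ G then |x c| else 0) (s := G)
      (L := SummationFilter.unconditional Nd) fun c hc => if_neg hc
    rwa [Finset.sum_congr rfl fun c hc => if_pos hc] at this
  refine hasSum_le (fun c => ?_) (hasSum_lift _ _ _ x)
    (((hasSum_abs x).mul_left δ).add ((hasSum_abs x).sub h1))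
  obtain ⟨h2, h3, -⟩ := phv_bounds t c
  have h4 : x c * phv t c ≤ |x c| * phv t c := mul_le_mul_of_nonneg_right (le_abs_self _) h2
  have h5 := abs_nonneg (x c)
  rw [smul_eq_mul]
  split_ifs with hc
  · have := h c hc
    nlinarith
  · nlinarith

theorem no_martingale (y : List Bool → L1 Nd) (C : ℝ) (hC : ∀ s, ‖y s‖ ≤ C)
    (hy : ∀ s, y s = (1 / 2 : ℝ) • (y (false :: s) + y (true :: s)))
    (h1 : ∀ t, phi t (y t) = 1) : False := by
  have hbdd : BddAbove (Set.range fun s => ‖y s‖) := ⟨C, by rintro _ ⟨s, rfl⟩; exact hC s⟩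
  set a := sSup (Set.range fun s => ‖y s‖) with ha
  have hle : ∀ s, ‖y s‖ ≤ a := fun s => le_csSup hbdd ⟨s, rfl⟩
  obtain ⟨_, ⟨s, rfl⟩, hs⟩ := exists_lt_of_lt_csSup (Set.range_nonempty fun s => ‖y s‖)
    (show a - 1 / 4 < a by linarith)
  obtain ⟨G, hG⟩ := ((hasSum_abs (y s)).eventually (lt_mem_nhds hs)).exists
  have hstep : ∀ n, ∃ t : List Bool, n ≤ t.length ∧ a - 1 / 4 < ∑ c ∈ G, |y t c| := by
    intro n
    induction n with
    | zero => exact ⟨s, Nat.zero_le _, hG⟩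
    | succ n ih =>
      obtain ⟨t, ht, h⟩ := ih
      by_contra hcon
      push Not at hcon
      have i1 := hcon (false :: t) (by simpa using ht)
      have i2 := hcon (true :: t) (by simpa using ht)
      have i3 : ∑ c ∈ G, |y t c| ≤
          ∑ c ∈ G, (1 / 2 : ℝ) * (|y (false :: t) c| + |y (true :: t) c|) := by
        refine Finset.sum_le_sum fun c _ => ?_
        rw [hy t]
        simp only [lp.coeFn_smul, lp.coeFn_add, Pi.smul_apply, Pi.add_apply, smul_eq_mul]
        rw [abs_mul, abs_of_nonneg (by norm_num : (0 : ℝ) ≤ 1 / 2)]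
        exact mul_le_mul_of_nonneg_left (abs_add_le _ _) (by norm_num)
      rw [← Finset.mul_sum, Finset.sum_add_distrib] at i3
      linarith
  set K : ℝ := ∑ c ∈ G, 2 ^ c.2.length with hK
  have hK0 : 0 ≤ K := Finset.sum_nonneg fun _ _ => by positivity
  have ha0 : 0 ≤ a := (norm_nonneg _).trans (hle s)
  obtain ⟨n, hn⟩ := pow_unbounded_of_one_lt (2 * K * a) (show (1 : ℝ) < 2 by norm_num)
  obtain ⟨t, ht, h⟩ := hstep n
  have hpos : (0 : ℝ) < 2 ^ t.length := by positivity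
  have h2 := phi_le t (y t) G (δ := K / 2 ^ t.length) (div_nonneg hK0 hpos.le) fun c hc => by
    rw [le_div_iff₀ hpos]
    exact (phv_bounds t c).2.2.trans
      (Finset.single_le_sum (f := fun c : Nd => (2 : ℝ) ^ c.2.length) (fun _ _ => by positivity) hc)
  have h3 : (2 : ℝ) ^ n ≤ 2 ^ t.length := pow_le_pow_right₀ (by norm_num) ht
  have h4 : K / 2 ^ t.length * ‖y t‖ ≤ 1 / 2 := by
    rw [div_mul_eq_mul_div, div_le_iff₀ hpos]
    have := mul_le_mul_of_nonneg_left (hle t) hK0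
    linarith
  have h5 := hle t
  rw [h1 t] at h2
  linarith

def uu : ℕ → List Bool → L1 Nd
  | 0, s => e (NN (fun _ => 0) 0 s)
  | r + 1, s => (1 / 2 : ℝ) • (uu r (false :: s) + uu r (true :: s))

theorem norm_uu (r : ℕ) (s : List Bool) : ‖uu r s‖ ≤ 1 := by
  induction r generalizing s with
  | zero => exact (norm_e _).le
  | succ r ih =>
    rw [uu, norm_smul]
    have := norm_add_le (uu r (false :: s)) (uu r (true :: s))
    have h1 := ih (false :: s)
    have h2 := ih (true :: s)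
    rw [Real.norm_eq_abs, abs_of_nonneg (by norm_num : (0 : ℝ) ≤ 1 / 2)]
    linarith

theorem uu_mem (T : List ℕ → Bool) (r : ℕ) (s : List Bool) :
    e (NN (fun _ => 0) 0 s) - uu r s ∈ cspan (genB T) := by
  induction r generalizing s with
  | zero => simp [uu]
  | succ r ih =>
    have := Submodule.add_mem _ (subset_cspan (GG_zero_mem T (fun _ => 0) s))
      (Submodule.smul_mem _ (1 / 2 : ℝ) (Submodule.add_mem _ (ih (false :: s)) (ih (true :: s))))
    convert this using 1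
    rw [GG_eq, uu]
    module

theorem not_P_genB (T : List ℕ → Bool) : ¬ P (cspan (genB T)) := by
  intro h
  obtain ⟨w, M, hw, hw'⟩ := h (fun s n => ⟨_, uu_mem T (n - s.length) s⟩)
    (fun s => ⟨_, subset_cspan (GG_zero_mem T (fun _ => 0) s)⟩) 2
    (fun s n => by
      have h1 := norm_sub_le (e (NN (fun _ => 0) 0 s)) (uu (n - s.length) s)
      have h2 := norm_uu (n - s.length) s
      rw [norm_e] at h1
      show ‖e (NN (fun _ => 0) 0 s) - uu (n - s.length) s‖ ≤ 2
      linarith)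
    (fun s n hn => by
      apply Subtype.ext
      obtain ⟨r, hr⟩ : ∃ r, n - s.length = r + 1 := ⟨n - s.length - 1, by omega⟩
      have hr' : n - (s.length + 1) = r := by omega
      show e (NN (fun _ => 0) 0 s) - uu (n - s.length) s - (1 / 2 : ℝ) •
        ((e (NN (fun _ => 0) 0 (false :: s)) - uu (n - (s.length + 1)) (false :: s)) +
          (e (NN (fun _ => 0) 0 (true :: s)) - uu (n - (s.length + 1)) (true :: s))) =
        GG (fun _ => 0) 0 s
      rw [hr, hr', GG_eq, uu]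
      module)
  refine no_martingale (fun s => e (NN (fun _ => 0) 0 s) - (w s : L1 Nd)) (1 + M)
    (fun s => ?_) (fun s => ?_) (fun t => ?_)
  · have h1 := norm_sub_le (e (NN (fun _ => 0) 0 s)) (w s : L1 Nd)
    have h2 : ‖(w s : L1 Nd)‖ ≤ M := hw s
    rw [norm_e] at h1
    linarith
  · have h1 : (w s : L1 Nd) - (1 / 2 : ℝ) • ((w (false :: s) : L1 Nd) + (w (true :: s) : L1 Nd)) =
        GG (fun _ => 0) 0 s := congrArg Subtype.val (hw' s)
    rw [GG_eq] at h1
    rw [eq_add_of_sub_eq h1]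
    module
  · have h1 : phi t (w t : L1 Nd) = 0 :=
      eq_on_cspan (phi t) 0 (by rintro _ ⟨k, c, -, rfl⟩; exact phi_gen t k c) (w t).2
    rw [map_sub, h1, sub_zero]
    unfold phi
    rw [lift_e]
    simp [phv, NN, map_snd_liftb, pr_self]

theorem iso_iff (T : List ℕ → Bool) :
    Nonempty (cspan (genA T) ≃L[ℝ] cspan (genB T)) ↔ IllF T := by
  refine ⟨fun ⟨φ⟩ => ?_, iso_of_IllF⟩
  by_contra hT
  exact not_P_genB T ((P_genA hT).of_equiv φ)

end

end Pool.Agent.MP_7ca887_an
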