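import Pool.Agent.MP_7ca887_an.Branch

/-! Transfer to `ℓ¹(ℕ)` and the Borel reduction of ill-founded trees to isomorphism. -/

namespace Pool.Agent.MP_7ca887_an

open Filter Topology

noncomputable section

theorem exists_transfer : ∃ (τ : L1 Nd →L[ℝ] L1 ℕ) (τ' : L1 ℕ →L[ℝ] L1 Nd), ∀ x, τ' (τ x) = x := by
  obtain ⟨f, hf⟩ := exists_injective_nat Nd
  obtain ⟨g, hg⟩ := hf.hasLeftInverse
  refine ⟨lift (fun c => e (f c)) 1 fun c => (norm_e _).le,
    lift (fun n => e (g n)) 1 fun c => (norm_e _).le, fun x => ?_⟩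
  have h1 := ((lift (fun n => e (g n)) 1 fun c => (norm_e _).le).comp
    (lift (fun c => e (f c)) 1 fun c => (norm_e _).le)).hasSum (hasSum_e x)
  refine h1.unique ?_
  simpa [lift_e, hg _] using hasSum_e x

theorem iso_image {E G : Type*} [NormedAddCommGroup E] [NormedSpace ℝ E] [NormedAddCommGroup G]
    [NormedSpace ℝ G] (τ : E →L[ℝ] G) (τ' : G →L[ℝ] E) (h : ∀ x, τ' (τ x) = x) (S : Set E) :
    Nonempty (cspan S ≃L[ℝ] cspan (τ '' S)) :=
  iso_of_gens τ τ' (fun x hx => ⟨x, hx, rfl⟩) (by rintro _ ⟨x, hx, rfl⟩; rwa [h])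
    (fun x _ => h x) (by rintro _ ⟨x, -, rfl⟩; rw [h])

theorem measurableSet_meets {X E ι : Type*} [MeasurableSpace X] [NormedAddCommGroup E]
    [NormedSpace ℝ E] [Countable ι] (x : ι → E) (cond : X → ι → Prop)
    (hc : ∀ i, MeasurableSet {T | cond T i}) {U : Set E} (hU : IsOpen U) :
    MeasurableSet {T | ((cspan (x '' {i | cond T i}) : Set E) ∩ U).Nonempty} := by
  classical
  have : {T | ((cspan (x '' {i | cond T i}) : Set E) ∩ U).Nonempty} =
      ⋃ A : Finset ι, ⋃ _ : ((Submodule.span ℝ (x '' (A : Set ι)) : Set E) ∩ U).Nonempty,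
        ⋂ i ∈ A, {T | cond T i} := by
    ext T
    simp only [Set.mem_ofPred_eq, Set.mem_iUnion, Set.mem_iInter]
    constructor
    · rintro ⟨y, hy, hyU⟩
      obtain ⟨z, hzU, hz⟩ := mem_closure_iff.1 hy U hU hyU
      obtain ⟨t, ht, hzt⟩ := Submodule.mem_span_finite_of_mem_span hz
      obtain ⟨A, hA, rfl⟩ := Finset.subset_set_image_iff.1 ht
      exact ⟨A, ⟨z, by simpa using hzt, hzU⟩, fun i hi => hA hi⟩
    · rintro ⟨A, ⟨z, hz, hzU⟩, hA⟩
      exact ⟨z, Submodule.le_topologicalClosure _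
        (Submodule.span_mono (Set.image_mono fun i hi => hA i hi) hz), hzU⟩
  rw [this]
  exact MeasurableSet.iUnion fun A => MeasurableSet.iUnion fun _ =>
    A.measurableSet_biInter fun i _ => hc i

theorem measurableSet_In (c : Nd) : MeasurableSet {T : List ℕ → Bool | In T c} :=
  (MeasurableSet.const (c.1 ≠ 0)).inter (measurableSet_inT _)

theorem measurableSet_InB (k : ℕ) (c : Nd) : MeasurableSet {T : List ℕ → Bool | InB T k c} :=
  (measurableSet_In _).union (MeasurableSet.const _)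

theorem image_genA (τ : L1 Nd →L[ℝ] L1 ℕ) (T : List ℕ → Bool) : τ '' genA T =
    (fun i : ℕ × Nd => τ (gen i.1 i.2)) '' {i | In T (ch (i.1, false) i.2)} := by
  ext y
  constructor
  · rintro ⟨_, ⟨k, c, h, rfl⟩, rfl⟩
    exact ⟨(k, c), h, rfl⟩
  · rintro ⟨⟨k, c⟩, h, rfl⟩
    exact ⟨_, ⟨k, c, h, rfl⟩, rfl⟩

theorem image_genB (τ : L1 Nd →L[ℝ] L1 ℕ) (T : List ℕ → Bool) : τ '' genB T =
    (fun i : ℕ × Nd => τ (gen i.1 i.2)) '' {i | InB T i.1 i.2} := by
  ext y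
  constructor
  · rintro ⟨_, ⟨k, c, h, rfl⟩, rfl⟩
    exact ⟨(k, c), h, rfl⟩
  · rintro ⟨⟨k, c⟩, h, rfl⟩
    exact ⟨_, ⟨k, c, h, rfl⟩, rfl⟩

theorem not_borel (M : MeasurableSpace {S : Submodule ℝ (L1 ℕ) // IsClosed (S : Set (L1 ℕ))})
    (hM : M = MeasurableSpace.generateFrom {A | ∃ U : Set (L1 ℕ), IsOpen U ∧
      A = {S | ((S.1 : Set (L1 ℕ)) ∩ U).Nonempty}}) :
    ¬ @MeasurableSet _ (M.prod M) {x | Nonempty (↥x.1.1 ≃L[ℝ] ↥x.2.1)} := by
  intro h
  obtain ⟨τ, τ', hτ⟩ := exists_transfer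
  let fA : (List ℕ → Bool) → {S : Submodule ℝ (L1 ℕ) // IsClosed (S : Set (L1 ℕ))} :=
    fun T => ⟨cspan (τ '' genA T), isClosed_cspan _⟩
  let fB : (List ℕ → Bool) → {S : Submodule ℝ (L1 ℕ) // IsClosed (S : Set (L1 ℕ))} :=
    fun T => ⟨cspan (τ '' genB T), isClosed_cspan _⟩
  have hA : Measurable fA := by
    rw [hM]
    apply measurable_generateFrom
    rintro _ ⟨U, hU, rfl⟩
    simp only [fA, image_genA]
    exact measurableSet_meets _ _ (fun i => measurableSet_In _) hU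
  have hB : Measurable fB := by
    rw [hM]
    apply measurable_generateFrom
    rintro _ ⟨U, hU, rfl⟩
    simp only [fB, image_genB]
    exact measurableSet_meets _ _ (fun i => measurableSet_InB _ _) hU
  apply not_measurableSet_IllF
  convert (hA.prodMk hB) h using 1
  ext T
  obtain ⟨φ⟩ := iso_image τ τ' hτ (genA T)
  obtain ⟨ψ⟩ := iso_image τ τ' hτ (genB T)
  rw [Set.mem_ofPred_eq, ← iso_iff]
  exact ⟨fun ⟨χ⟩ => ⟨φ.symm.trans (χ.trans ψ)⟩, fun ⟨χ⟩ => ⟨φ.trans (χ.trans ψ.symm)⟩⟩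

end

end Pool.Agent.MP_7ca887_an
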